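import Pool.Agent.helper73.AD.Basic

/-!
Module DX of the project ad: Darboux complement of an independent isotropic family of full size.
-/

namespace Pool.Agent.helper73.AD

open scoped BigOperators Topology

theorem DX : DX_stmt := by
  intro J K _ _ _ _ e _hcard hiso hind
  classical
  -- the map z ↦ (om (e k) z)_k
  let Φ : PS J →ₗ[ℝ] (K → ℝ) :=
    LinearMap.pi (fun k => (omL (e k) : PS J →L[ℝ] ℝ).toLinearMap)
  have hΦ : ∀ z k, Φ z k = om (e k) z := fun z k => rfl
  have hsurj : Function.Surjective Φ := by
    rw [← LinearMap.range_eq_top]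
    by_contra hne
    obtain ⟨f, hf0, hf⟩ := Submodule.exists_le_ker_of_lt_top (LinearMap.range Φ)
      (lt_top_iff_ne_top.mpr hne)
    apply hf0
    have hz : ∀ z : PS J, ∑ k, f (Pi.single k 1) * om (e k) z = 0 := by
      intro z
      have h1 : f (Φ z) = 0 := hf (LinearMap.mem_range_self Φ z)
      have h2 : Φ z = ∑ k, (om (e k) z) • (Pi.single k (1 : ℝ) : K → ℝ) := by
        ext m
        rw [hΦ]
        simp [Finset.sum_apply, Pi.single_apply]
      rw [h2, map_sum] at h1
      rw [← h1]
      refine Finset.sum_congr rfl fun k _ => ?_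
      rw [map_smul, smul_eq_mul, mul_comm]
    have h0 : ∑ k, f (Pi.single k 1) • e k = 0 := by
      refine eq_zero_of_om _ fun y => ?_
      rw [om_sum_left]
      rw [← hz y]
      exact Finset.sum_congr rfl fun k _ => om_smul_left _ _ _
    have hc := Fintype.linearIndependent_iff.mp hind _ h0
    refine LinearMap.pi_ext' fun k => ?_
    ext
    simpa using hc k
  choose g hg using fun m : K => hsurj (Pi.single m 1)
  have hg' : ∀ k m, om (e k) (g m) = if k = m then 1 else 0 := by
    intro k m
    rw [← hΦ, hg]
    simp [Pi.single_apply]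
  refine ⟨fun m => g m + ∑ n, (-(1 / 2) * om (g m) (g n)) • e n, ?_, ?_⟩
  · intro k m
    rw [om_add_right, om_sum_right, hg']
    rw [Finset.sum_eq_zero, add_zero]
    intro n _
    rw [om_smul_right, hiso, mul_zero]
  · intro k m
    have h1 : om (g k) (∑ n, (-(1 / 2) * om (g m) (g n)) • e n) = (1 / 2) * om (g m) (g k) := by
      rw [om_sum_right]
      have : ∀ n ∈ (Finset.univ : Finset K), om (g k) ((-(1 / 2) * om (g m) (g n)) • e n)
          = if n = k then (1 / 2) * om (g m) (g n) else 0 := by
        intro n _
        rw [om_smul_right, om_anti (g k) (e n), hg']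
        split_ifs <;> ring
      rw [Finset.sum_congr rfl this, Finset.sum_ite_eq' Finset.univ k]
      simp
    have h2 : om (∑ n, (-(1 / 2) * om (g k) (g n)) • e n) (g m) = -(1 / 2) * om (g k) (g m) := by
      rw [om_sum_left]
      have : ∀ n ∈ (Finset.univ : Finset K), om ((-(1 / 2) * om (g k) (g n)) • e n) (g m)
          = if n = m then -(1 / 2) * om (g k) (g n) else 0 := by
        intro n _
        rw [om_smul_left, hg']
        split_ifs <;> ring
      rw [Finset.sum_congr rfl this, Finset.sum_ite_eq' Finset.univ m]
      simp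
    have h3 : om (∑ n, (-(1 / 2) * om (g k) (g n)) • e n)
        (∑ n, (-(1 / 2) * om (g m) (g n)) • e n) = 0 := by
      rw [om_sum_left]
      refine Finset.sum_eq_zero fun n _ => ?_
      rw [om_smul_left, om_sum_right]
      rw [Finset.sum_eq_zero, mul_zero]
      intro n' _
      rw [om_smul_right, hiso, mul_zero]
    rw [om_add_left, om_add_right, om_add_right, h1, h2, h3, om_anti (g m) (g k)]
    ring

end Pool.Agent.helper73.AD
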